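import Pool.Agent.H87.CloneB

/-!
The clone lattice on a set of infinite regular cardinality is not dually atomic (in ZFC).
-/

set_option autoImplicit false

namespace Pool.Agent.Results.MP_174cbb_lc.NotDuallyAtomic

open Pool.Agent.H87.CloneA Pool.Agent.H87.CloneB

universe u

/-- A clone on `X`: for every `n` a set `ops n` of `(n+1)`-ary operations on `X`, such that all
projections are members and the composition of an `(m+1)`-ary member with `m+1` members of
arity `n+1` is a member. -/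
@[ext]
structure Clone (X : Type u) where
  /-- the `(n+1)`-ary members -/
  ops : (n : ℕ) → Set ((Fin (n + 1) → X) → X)
  proj_mem : ∀ (n : ℕ) (i : Fin (n + 1)), (fun x => x i) ∈ ops n
  comp_mem : ∀ (m n : ℕ) (f : (Fin (m + 1) → X) → X)
    (g : Fin (m + 1) → (Fin (n + 1) → X) → X),
    f ∈ ops m → (∀ i, g i ∈ ops n) → (fun x => f (fun i => g i x)) ∈ ops n

/-- Clones are ordered by inclusion. -/
instance (X : Type u) : PartialOrder (Clone X) where
  le C D := ∀ n, C.ops n ⊆ D.ops n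
  le_refl _ _ := Set.Subset.rfl
  le_trans _ _ _ h h' n := (h n).trans (h' n)
  le_antisymm _ _ h h' := Clone.ext (funext fun n => Set.Subset.antisymm (h n) (h' n))

/-- The largest clone: all operations of arity at least one. -/
instance (X : Type u) : OrderTop (Clone X) where
  top := ⟨fun _ => Set.univ, fun _ _ => Set.mem_univ _, fun _ _ _ _ _ _ => Set.mem_univ _⟩
  le_top _ _ := Set.subset_univ _

/-- The clone lattice on `X` is dually atomic if every clone other than the clone of all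
operations lies below a coatom (a precomplete clone). -/
def DuallyAtomic (X : Type u) : Prop :=
  ∀ C : Clone X, C ≠ ⊤ → ∃ M : Clone X, IsCoatom M ∧ C ≤ M

section Proof

variable {X : Type u} [LinearOrder X] [WellFoundedLT X]

open Classical in
/-- the least element of `A` above `x` -/
noncomputable def d (A : Set X) (x : X) : X :=
  if h : {a | a ∈ A ∧ x ≤ a}.Nonempty then (wellFounded_lt (α := X)).min {a | a ∈ A ∧ x ≤ a} h
  else x

/-- cofinal subsets -/
def Cof (A : Set X) : Prop := ∀ x, ∃ a ∈ A, x ≤ a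

lemma d_spec {A : Set X} (hA : Cof A) (x : X) : d A x ∈ A ∧ x ≤ d A x := by
  have h : {a | a ∈ A ∧ x ≤ a}.Nonempty := by
    obtain ⟨a, h1, h2⟩ := hA x
    exact ⟨a, h1, h2⟩
  rw [d, dif_pos h]
  exact WellFounded.min_mem _ _ h

lemma d_le {A : Set X} {x a : X} (ha : a ∈ A) (hx : x ≤ a) : d A x ≤ a := by
  have hm : a ∈ {a | a ∈ A ∧ x ≤ a} := ⟨ha, hx⟩
  have h : {a | a ∈ A ∧ x ≤ a}.Nonempty := ⟨a, hm⟩
  rw [d, dif_pos h]
  exact not_lt.1 ((wellFounded_lt (α := X)).not_lt_min _ hm)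

lemma d_mono {A : Set X} (hA : Cof A) : Monotone (d A) := fun _ y hxy =>
  d_le (d_spec hA y).1 (hxy.trans (d_spec hA y).2)

lemma d_anti {A B : Set X} (hAB : A ⊆ B) (hA : Cof A) (x : X) : d B x ≤ d A x :=
  d_le (hAB (d_spec hA x).1) (d_spec hA x).2

/-- the growth function -/
noncomputable def e (g : X → X) (A : Set X) (x : X) : X := d A (g x)

lemma e_mono {g : X → X} (hg : Monotone g) {A : Set X} (hA : Cof A) : Monotone (e g A) :=
  (d_mono hA).comp hg

lemma le_e {g : X → X} (hg : ∀ x, x ≤ g x) {A : Set X} (hA : Cof A) (x : X) : x ≤ e g A x :=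
  (hg x).trans (d_spec hA _).2

lemma le_iter {k : X → X} (hk : ∀ x, x ≤ k x) (n : ℕ) (x : X) : x ≤ k^[n] x := by
  induction n with
  | zero => exact le_rfl
  | succ n ih => rw [Function.iterate_succ_apply']; exact ih.trans (hk _)

lemma iter_le {g : X → X} (hg : Monotone g) (hg' : ∀ x, x ≤ g x) {A B : Set X} (hBA : B ⊆ A)
    (hB : Cof B) {i j : ℕ} (hij : i ≤ j) (x : X) : (e g A)^[i] x ≤ (e g B)^[j] x := by
  have h1 : ∀ n, (e g A)^[n] x ≤ (e g B)^[n] x := by
    intro n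
    induction n with
    | zero => exact le_rfl
    | succ n ih =>
      rw [Function.iterate_succ_apply', Function.iterate_succ_apply']
      have hA : Cof A := fun x => by
        obtain ⟨a, h1, h2⟩ := hB x
        exact ⟨a, hBA h1, h2⟩
      exact (e_mono hg hA ih).trans (d_anti hBA hB _)
  obtain ⟨t, rfl⟩ := Nat.exists_eq_add_of_le hij
  rw [add_comm, Function.iterate_add_apply]
  exact (h1 i).trans (le_iter (le_e hg' hB) t _)

/-- The clone of the operations that do not leave initial segments `[0,a]`, for `𝒱`-almost all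
`a`. -/
def CV (𝒱 : Ultrafilter X) : Clone X where
  ops n := {f | ∃ A ∈ 𝒱, ∀ a ∈ A, ∀ x : Fin (n + 1) → X, (∀ i, x i ≤ a) → f x ≤ a}
  proj_mem _ i := ⟨Set.univ, Filter.univ_mem, fun _ _ _ hx => hx i⟩
  comp_mem m n f g := by
    rintro ⟨A, hA, hf⟩ hg
    choose B hB hg using hg
    refine ⟨A ∩ ⋂ i, B i, Filter.inter_mem hA (Filter.iInter_mem.2 hB), ?_⟩
    rintro a ⟨ha, ha'⟩ x hx
    exact hf a ha _ fun i => hg i a (Set.mem_iInter.1 ha' i) x hx

/-- The clone of the operations bounded by an iterate of `e g A` for some `A ∈ 𝒱`. -/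
def GG (𝒱 : Ultrafilter X) (hV : ∀ A ∈ 𝒱, Cof A) (g : X → X) (hg : Monotone g)
    (hg' : ∀ x, x ≤ g x) : Clone X where
  ops n := {f | ∃ A ∈ 𝒱, ∃ k : ℕ, ∀ (x : Fin (n + 1) → X) (m : X), (∀ i, x i ≤ m) →
    f x ≤ (e g A)^[k] m}
  proj_mem _ i := ⟨Set.univ, Filter.univ_mem, 0, fun _ _ hx => hx i⟩
  comp_mem m n f h := by
    rintro ⟨A, hA, k, hf⟩ hh
    choose B hB l hh using hh
    have hC : A ∩ (⋂ i, B i) ∈ 𝒱 := Filter.inter_mem hA (Filter.iInter_mem.2 hB)
    refine ⟨A ∩ ⋂ i, B i, hC, k + Finset.univ.sup l, ?_⟩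
    intro x b hx
    rw [Function.iterate_add_apply]
    refine (hf _ ((e g (A ∩ ⋂ i, B i))^[Finset.univ.sup l] b) ?_).trans ?_
    · intro i
      refine (hh i x b hx).trans (iter_le hg hg' ?_ (hV _ hC) ?_ _)
      · exact fun y hy => Set.mem_iInter.1 hy.2 i
      · exact Finset.le_sup (Finset.mem_univ i)
    · exact iter_le hg hg' Set.inter_subset_left (hV _ hC) le_rfl _

lemma CV_le_GG (𝒱 : Ultrafilter X) (hV : ∀ A ∈ 𝒱, Cof A) (g : X → X) (hg : Monotone g)
    (hg' : ∀ x, x ≤ g x) : CV 𝒱 ≤ GG 𝒱 hV g hg hg' := by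
  rintro n f ⟨A, hA, hf⟩
  refine ⟨A, hA, 1, fun x m hx => ?_⟩
  rw [Function.iterate_one]
  exact hf _ (d_spec (hV A hA) _).1 x fun i =>
    (hx i).trans ((hg' m).trans (d_spec (hV A hA) _).2)

lemma GG_ne_top (𝒱 : Ultrafilter X) (hV : ∀ A ∈ 𝒱, Cof A) (g : X → X) (hg : Monotone g)
    (hg' : ∀ x, x ≤ g x) (f : X → X) (hf : ∀ A ∈ 𝒱, ∀ N, ¬ P A f g N) :
    GG 𝒱 hV g hg hg' ≠ ⊤ := by
  intro htop
  have h1 : (fun x : Fin (0 + 1) → X => f (x 0)) ∈ (GG 𝒱 hV g hg hg').ops 0 := by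
    rw [htop]; exact Set.mem_univ _
  obtain ⟨A, hA, k, h2⟩ := h1
  refine hf A hA k ?_
  intro y
  refine ⟨fun j => (e g A)^[(j : ℕ)] y, fun j => le_iter (le_e hg' (hV A hA)) _ _, ?_⟩
  intro p hp hyp hpf
  have h3 : p < (e g A)^[k] y := hpf.trans_le (h2 (fun _ => y) y fun _ => le_rfl)
  have hex : ∃ j, p < (e g A)^[j] y := ⟨k, h3⟩
  classical
  have hj := Nat.find_spec hex
  have hj0 : Nat.find hex ≠ 0 := by
    intro h0
    rw [h0] at hj
    exact absurd hyp (not_le.2 hj)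
  obtain ⟨i, hi⟩ := Nat.exists_eq_succ_of_ne_zero hj0
  have hik : i < k := by
    have := Nat.find_min' hex h3
    omega
  have hi2 : ¬ p < (e g A)^[i] y := Nat.find_min hex (by omega)
  refine ⟨⟨i, hik⟩, not_lt.1 hi2, ?_⟩
  rw [hi, Nat.succ_eq_add_one, Function.iterate_succ_apply'] at hj
  by_contra hcon
  exact absurd (d_le hp (not_le.1 hcon).le) (not_le.2 hj)

/-- An upper bound of a tuple. -/
noncomputable def mx {n : ℕ} (x : Fin (n + 1) → X) : X :=
  Finset.univ.sup' ⟨0, Finset.mem_univ _⟩ x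

lemma le_mx {n : ℕ} (x : Fin (n + 1) → X) (i : Fin (n + 1)) : x i ≤ mx x :=
  Finset.le_sup' x (Finset.mem_univ i)

lemma mx_le {n : ℕ} {x : Fin (n + 1) → X} {b : X} (h : ∀ i, x i ≤ b) : mx x ≤ b :=
  Finset.sup'_le _ _ fun i _ => h i

open Classical in
/-- No coatom lies above `CV 𝒱`. -/
theorem no_coatom (hX : Reg X) (𝒱 : Ultrafilter X) (hV : ∀ A ∈ 𝒱, Cof A)
    (hP : ∀ g : X → X, ∃ f : X → X, ∀ A ∈ 𝒱, ∀ N, ¬ P A f g N) (M : Clone X)
    (hM : CV 𝒱 ≤ M) : ¬ IsCoatom M := by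
  intro hco
  -- an operation outside `M`
  have hne : ∃ n0, ∃ g0 : (Fin (n0 + 1) → X) → X, g0 ∉ M.ops n0 := by
    by_contra hcon
    push Not at hcon
    exact hco.1 (le_antisymm le_top fun n f _ => hcon n f)
  obtain ⟨n0, g0, hg0⟩ := hne
  -- its envelope
  have hb : ∀ a : X, ∃ b, ∀ x : Fin (n0 + 1) → X, (∀ i, x i ≤ a) → g0 x ≤ b :=
    fun a => hX.bounded_op (n0 + 1) a g0
  choose k hk using hb
  obtain ⟨g, hgm, hgi, hgk⟩ := hX.envelope k
  have hg0g : ∀ (x : Fin (n0 + 1) → X) (m : X), (∀ i, x i ≤ m) → g0 x ≤ g m :=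
    fun x m hx => (hk m x hx).trans (hgk m)
  obtain ⟨f, hf⟩ := hP g
  have hGtop := GG_ne_top 𝒱 hV g hgm hgi f hf
  -- `M` is below `GG`
  have hMG : M ≤ GG 𝒱 hV g hgm hgi := by
    intro n h hh
    let A : Set X := {a | ∀ u : Fin (n0 + 1) → X, (∀ i, u i ≤ a) →
      ∃ x : Fin (n + 1) → X, (∀ i, x i ≤ a) ∧ g0 u ≤ h x}
    by_cases hA : A ∈ 𝒱
    · exfalso
      apply hg0
      have hAc := hV A hA
      have h1 : ∀ u : Fin (n0 + 1) → X, ∃ x : Fin (n + 1) → X,
          (∀ i, x i ≤ d A (mx u)) ∧ g0 u ≤ h x := by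
        intro u
        exact (d_spec hAc (mx u)).1 u fun i => (le_mx u i).trans (d_spec hAc (mx u)).2
      choose y hy1 hy2 using h1
      have hyM : ∀ i, (fun u => y u i) ∈ M.ops n0 := by
        intro i
        refine hM n0 ⟨A, hA, fun a ha u hu => ?_⟩
        exact (hy1 u i).trans (d_le ha (mx_le hu))
      have hhy : (fun u => h (fun i => y u i)) ∈ M.ops n0 :=
        M.comp_mem n n0 h (fun i u => y u i) hh hyM
      -- the truncation
      let H : (Fin (n0 + 1 + 1) → X) → X := fun w =>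
        if g0 (fun i => w i.succ) ≤ w 0 then g0 (fun i => w i.succ) else w 0
      have hH : H ∈ M.ops (n0 + 1) := by
        refine hM (n0 + 1) ⟨Set.univ, Filter.univ_mem, fun a _ w hw => ?_⟩
        change (if g0 (fun i => w i.succ) ≤ w 0 then g0 (fun i => w i.succ) else w 0) ≤ a
        split_ifs with h2
        · exact h2.trans (hw 0)
        · exact hw 0
      have hcomp := M.comp_mem (n0 + 1) n0 H
        (Fin.cons (fun u => h (fun i => y u i)) (fun i u => u i)) hH (by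
          intro i
          refine Fin.cases ?_ (fun j => ?_) i
          · rw [Fin.cons_zero]; exact hhy
          · rw [Fin.cons_succ]; exact M.proj_mem n0 j)
      have heq : (fun u : Fin (n0 + 1) → X => H (fun i =>
          (Fin.cons (α := fun _ => (Fin (n0 + 1) → X) → X) (fun u => h (fun i => y u i))
            (fun i u => u i) : Fin (n0 + 1 + 1) → (Fin (n0 + 1) → X) → X) i u)) = g0 := by
        funext u
        simp only [H, Fin.cons_zero, Fin.cons_succ]
        exact if_pos (hy2 u)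
      rwa [heq] at hcomp
    · have hB : Aᶜ ∈ 𝒱 := Ultrafilter.compl_mem_iff_notMem.2 hA
      have hBc := hV _ hB
      refine ⟨Aᶜ, hB, 2, fun x m hx => ?_⟩
      have h1 : d Aᶜ (g m) ∈ Aᶜ := (d_spec hBc (g m)).1
      have h2 : ¬ ∀ u : Fin (n0 + 1) → X, (∀ i, u i ≤ d Aᶜ (g m)) →
          ∃ x : Fin (n + 1) → X, (∀ i, x i ≤ d Aᶜ (g m)) ∧ g0 u ≤ h x := h1
      push Not at h2
      obtain ⟨u, hu, hu2⟩ := h2
      have h3 : h x < g0 u :=
        hu2 x fun i => (hx i).trans ((hgi m).trans (d_spec hBc (g m)).2)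
      have h4 : g0 u ≤ g (e g Aᶜ m) := hg0g u _ hu
      have h5 : g (e g Aᶜ m) ≤ e g Aᶜ (e g Aᶜ m) := (d_spec hBc _).2
      exact h3.le.trans (h4.trans h5)
  have hg0G : g0 ∈ (GG 𝒱 hV g hgm hgi).ops n0 := by
    refine ⟨Set.univ, Filter.univ_mem, 1, fun x m hx => ?_⟩
    exact (hg0g x m hx).trans (d_spec (hV _ Filter.univ_mem) _).2
  have hlt : M < GG 𝒱 hV g hgm hgi :=
    lt_of_le_of_ne hMG fun h => hg0 (by rw [h]; exact hg0G)
  exact hGtop (hco.2 _ hlt)

theorem main (hX : Reg X) : ¬ DuallyAtomic X := by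
  obtain ⟨𝒱, hP⟩ := hX.exists_ultrafilter
  have hV : ∀ A ∈ 𝒱, Cof A := by
    intro A hA b
    by_contra hcon
    push Not at hcon
    obtain ⟨f, hf⟩ := hP fun x => max x b
    refine hf A hA 1 ?_
    intro y
    exact ⟨fun _ => y, fun _ => le_rfl, fun p hp hyp _ =>
      ⟨0, hyp, (hcon p hp).le.trans (le_max_right _ _)⟩⟩
  intro hdual
  have hCV : CV 𝒱 ≠ ⊤ := by
    intro htop
    obtain ⟨f, hf⟩ := hP id
    refine GG_ne_top 𝒱 hV id monotone_id (fun _ => le_rfl) f hf ?_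
    exact le_antisymm le_top (htop ▸ CV_le_GG 𝒱 hV id monotone_id fun _ => le_rfl)
  obtain ⟨M, hM, hCM⟩ := hdual _ hCV
  exact no_coatom hX 𝒱 hV hP M hCM hM

end Proof

/-- For every set `X` of infinite regular cardinality the clone lattice on `X` is not dually
atomic. -/
theorem result (X : Type u) (hX : (Cardinal.mk X).IsRegular) : ¬ DuallyAtomic X := by
  classical
  obtain ⟨e⟩ : Nonempty (X ≃ (Cardinal.mk X).ord.ToType) := by
    rw [← Cardinal.eq, Cardinal.mk_ord_toType]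
  letI : LinearOrder X := LinearOrder.lift' e e.injective
  have hwf : WellFoundedLT X := ⟨InvImage.wf e (wellFounded_lt (α := (Cardinal.mk X).ord.ToType))⟩
  refine main ⟨hX, fun a => ?_⟩
  have h1 : Cardinal.mk (Set.Iio a) ≤ Cardinal.mk (Set.Iio (e a)) :=
    Cardinal.mk_le_of_injective (f := fun x : Set.Iio a => (⟨e x.1, x.2⟩ : Set.Iio (e a)))
      (fun x y hxy => Subtype.ext (e.injective (congrArg Subtype.val hxy)))
  exact h1.trans_lt (Cardinal.mk_Iio_toType_ord_lt (e a))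

end Pool.Agent.Results.MP_174cbb_lc.NotDuallyAtomic
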